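import Mathlib

/-!
Every infinite group without elements of order two is the automorphism group of a tournament
with at most six vertex orbits.
-/

universe u

namespace Pool.Agent.Results.MP_4ac3ef_co.SixOrbits

open Cardinal Set

/-- A tournament on a (possibly infinite) vertex type `V`. -/
structure Tourn (V : Type u) where
  /-- `arc x y` means that `(x,y)` is an arc. -/
  arc : V → V → Prop
  /-- there is no loop -/
  loopless : ∀ v, ¬ arc v v
  /-- exactly one of `(x,y)`, `(y,x)` is an arc -/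
  total : ∀ x y, x ≠ y → (arc x y ↔ ¬ arc y x)

/-- The automorphism group: all bijections of the vertex type preserving the arcs. -/
def Aut {V : Type u} (T : Tourn V) : Subgroup (Equiv.Perm V) where
  carrier := {e | ∀ x y, T.arc x y ↔ T.arc (e x) (e y)}
  mul_mem' := by
    intro a b ha hb x y
    rw [hb x y, ha (b x) (b y)]
    rfl
  one_mem' := by
    intro x y
    rfl
  inv_mem' := by
    intro a ha x y
    have h1 : ∀ z, a (a⁻¹ z) = z := fun z => a.apply_symm_apply z
    have := ha (a⁻¹ x) (a⁻¹ y)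
    rw [h1, h1] at this
    exact this.symm

section Sequences

variable {G : Type u} [Group G]

/-- the modifier of index `i`: one or the inverse of `x i` -/
def yy {I : Type u} (x : I → G) (i : I) (c : Bool) : G := if c then 1 else (x i)⁻¹

/-- the two elements of rank `i` -/
def aa {I : Type u} (x s : I → G) (i : I) (c : Bool) : G := yy x i c * s i

variable {I : Type u} [LinearOrder I]

/-- elements to be avoided by `s i` -/
def Bad1 (x s d : I → G) (i : I) : Set G :=
  {t | ∃ α < i, ∃ β < i, ∃ δ < i, ∃ c c' : Bool,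
    t = (yy x i c')⁻¹ * d δ * (d β)⁻¹ * aa x s α c}

/-- elements to be avoided by `d i` -/
def Bad2 (x s d : I → G) (i : I) : Set G :=
  {z | ∃ α ≤ i, ∃ γ ≤ i, ∃ δ < i, ∃ c c' : Bool, z = aa x s α c * (aa x s γ c')⁻¹ * d δ}

lemma Bad1_congr (x s d s' d' : I → G) (i : I) (hs : ∀ j < i, s j = s' j)
    (hd : ∀ j < i, d j = d' j) : Bad1 x s d i = Bad1 x s' d' i := by
  ext t
  constructor
  · rintro ⟨α, hα, β, hβ, δ, hδ, c, c', rfl⟩
    refine ⟨α, hα, β, hβ, δ, hδ, c, c', ?_⟩
    simp only [aa, hs α hα, hd β hβ, hd δ hδ]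
  · rintro ⟨α, hα, β, hβ, δ, hδ, c, c', rfl⟩
    refine ⟨α, hα, β, hβ, δ, hδ, c, c', ?_⟩
    simp only [aa, hs α hα, hd β hβ, hd δ hδ]

lemma Bad2_congr (x s d s' d' : I → G) (i : I) (hs : ∀ j ≤ i, s j = s' j)
    (hd : ∀ j < i, d j = d' j) : Bad2 x s d i = Bad2 x s' d' i := by
  ext t
  constructor
  · rintro ⟨α, hα, β, hβ, δ, hδ, c, c', rfl⟩
    refine ⟨α, hα, β, hβ, δ, hδ, c, c', ?_⟩
    simp only [aa, hs α hα, hs β hβ, hd δ hδ]
  · rintro ⟨α, hα, β, hβ, δ, hδ, c, c', rfl⟩
    refine ⟨α, hα, β, hβ, δ, hδ, c, c', ?_⟩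
    simp only [aa, hs α hα, hs β hβ, hd δ hδ]

open Classical in
/-- pick an element outside a set -/
noncomputable def pick (X : Set G) : G := if h : (Xᶜ).Nonempty then h.some else 1

lemma pick_spec {X : Set G} (h : (Xᶜ).Nonempty) : pick X ∉ X := by
  unfold pick
  rw [dif_pos h]
  exact h.some_mem

variable [WellFoundedLT I]

open Classical in
/-- the recursion step -/
noncomputable def stepF (x : I → G) (i : I) (prev : ∀ j, j < i → G × G) : G × G :=
  let t := pick (Bad1 x (fun j => if h : j < i then (prev j h).1 else 1)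
    (fun j => if h : j < i then (prev j h).2 else 1) i)
  (t, pick (Bad2 x (fun j => if h : j < i then (prev j h).1 else t)
    (fun j => if h : j < i then (prev j h).2 else 1) i))

/-- the two sequences as a sequence of pairs -/
noncomputable def seqF (x : I → G) : I → G × G :=
  (wellFounded_lt (α := I)).fix (fun i prev => stepF x i prev)

lemma seqF_eq (x : I → G) (i : I) : seqF x i = stepF x i (fun j _ => seqF x j) :=
  (wellFounded_lt (α := I)).fix_eq _ i

lemma seq_fst (x : I → G) (i : I) :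
    (seqF x i).1 = pick (Bad1 x (fun j => (seqF x j).1) (fun j => (seqF x j).2) i) := by
  classical
  rw [seqF_eq]
  show pick _ = pick _
  congr 1
  apply Bad1_congr
  · intro j hj
    simp [hj]
  · intro j hj
    simp [hj]

lemma seq_snd (x : I → G) (i : I) :
    (seqF x i).2 = pick (Bad2 x (fun j => (seqF x j).1) (fun j => (seqF x j).2) i) := by
  classical
  have h1 : (seqF x i).1 = pick (Bad1 x (fun j => if _ : j < i then (seqF x j).1 else 1)
    (fun j => if _ : j < i then (seqF x j).2 else 1) i) := by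
    conv_lhs => rw [seqF_eq]
    rfl
  have h2 : (seqF x i).2 = pick (Bad2 x (fun j => if _ : j < i then (seqF x j).1 else
      (seqF x i).1) (fun j => if _ : j < i then (seqF x j).2 else 1) i) := by
    conv_lhs => rw [seqF_eq]
    rw [h1]
    rfl
  rw [h2]
  congr 1
  apply Bad2_congr
  · intro j hj
    rcases hj.lt_or_eq with h | h
    · simp [h]
    · simp [h]
  · intro j hj
    simp [hj]

/-- The combinatorial heart: two sequences with a half graph condition. -/
lemma exists_seq (x : I → G) (κ : Cardinal.{u}) (hκ : ℵ₀ ≤ κ) (hG : #G = κ)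
    (hI : ∀ i : I, #(Iio i) < κ) :
    ∃ s d : I → G, ∀ α β γ δ : I, ∀ c c' : Bool, α ≤ β → δ < γ →
      (aa x s α c)⁻¹ * d β ≠ (aa x s γ c')⁻¹ * d δ := by
  have small1 : ∀ s d : I → G, ∀ i, ((Bad1 x s d i)ᶜ).Nonempty := by
    intro s d i
    by_contra hne
    rw [Set.not_nonempty_iff_eq_empty, Set.compl_empty_iff] at hne
    let f : (Iio i × Iio i × Iio i × Bool × Bool) → G := fun p =>
      (yy x i p.2.2.2.2)⁻¹ * d p.2.2.1 * (d p.2.1)⁻¹ * aa x s p.1 p.2.2.2.1
    have hf : Function.Surjective f := by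
      intro t
      have ht : t ∈ Bad1 x s d i := by rw [hne]; trivial
      obtain ⟨α, hα, β, hβ, δ, hδ, c, c', h⟩ := ht
      exact ⟨(⟨α, hα⟩, ⟨β, hβ⟩, ⟨δ, hδ⟩, c, c'), h.symm⟩
    have h1 := Cardinal.mk_le_of_surjective hf
    have hb : #(ULift.{u} Bool) < κ := lt_of_lt_of_le (Cardinal.lt_aleph0_of_finite _) hκ
    have h2 : #(Iio i × Iio i × Iio i × Bool × Bool) < κ := by
      have hb' : Cardinal.lift.{u} #(Bool × Bool) < κ := by
        refine lt_of_lt_of_le ?_ hκ
        rw [Cardinal.lift_lt_aleph0]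
        exact Cardinal.lt_aleph0_of_finite _
      have e : #(Iio i × Iio i × Iio i × Bool × Bool) =
          #(Iio i) * (#(Iio i) * (#(Iio i) * Cardinal.lift.{u} #(Bool × Bool))) := by
        simp [Cardinal.mk_prod]
      rw [e]
      exact Cardinal.mul_lt_of_lt hκ (hI i) (Cardinal.mul_lt_of_lt hκ (hI i)
        (Cardinal.mul_lt_of_lt hκ (hI i) hb'))
    rw [hG] at h1
    exact absurd h1 (not_le.2 h2)
  have hI' : ∀ i : I, #(Iic i) < κ := by
    intro i
    rcases hκ.lt_or_eq with h | h
    · have h3 : Iic i = insert i (Iio i) := by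
        ext j
        simp [le_iff_eq_or_lt]
      rw [h3]
      refine (Cardinal.mk_insert_le).trans_lt ?_
      exact Cardinal.add_lt_of_lt hκ (hI i) (lt_of_lt_of_le Cardinal.one_lt_aleph0 hκ)
    · have h3 : Iic i = insert i (Iio i) := by
        ext j
        simp [le_iff_eq_or_lt]
      rw [h3]
      refine (Cardinal.mk_insert_le).trans_lt ?_
      exact Cardinal.add_lt_of_lt hκ (hI i) (lt_of_lt_of_le Cardinal.one_lt_aleph0 hκ)
  have small2 : ∀ s d : I → G, ∀ i, ((Bad2 x s d i)ᶜ).Nonempty := by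
    intro s d i
    by_contra hne
    rw [Set.not_nonempty_iff_eq_empty, Set.compl_empty_iff] at hne
    let f : (Iic i × Iic i × Iio i × Bool × Bool) → G := fun p =>
      aa x s p.1 p.2.2.2.1 * (aa x s p.2.1 p.2.2.2.2)⁻¹ * d p.2.2.1
    have hf : Function.Surjective f := by
      intro t
      have ht : t ∈ Bad2 x s d i := by rw [hne]; trivial
      obtain ⟨α, hα, β, hβ, δ, hδ, c, c', h⟩ := ht
      exact ⟨(⟨α, hα⟩, ⟨β, hβ⟩, ⟨δ, hδ⟩, c, c'), h.symm⟩
    have h1 := Cardinal.mk_le_of_surjective hf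
    have h2 : #(Iic i × Iic i × Iio i × Bool × Bool) < κ := by
      have hb' : Cardinal.lift.{u} #(Bool × Bool) < κ := by
        refine lt_of_lt_of_le ?_ hκ
        rw [Cardinal.lift_lt_aleph0]
        exact Cardinal.lt_aleph0_of_finite _
      have e : #(Iic i × Iic i × Iio i × Bool × Bool) =
          #(Iic i) * (#(Iic i) * (#(Iio i) * Cardinal.lift.{u} #(Bool × Bool))) := by
        simp [Cardinal.mk_prod]
      rw [e]
      exact Cardinal.mul_lt_of_lt hκ (hI' i) (Cardinal.mul_lt_of_lt hκ (hI' i)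
        (Cardinal.mul_lt_of_lt hκ (hI i) hb'))
    rw [hG] at h1
    exact absurd h1 (not_le.2 h2)
  refine ⟨fun j => (seqF x j).1, fun j => (seqF x j).2, ?_⟩
  intro α β γ δ c c' hαβ hδγ heq
  rcases lt_or_ge β γ with h | h
  · have h1 : (seqF x γ).1 ∉ Bad1 x (fun j => (seqF x j).1) (fun j => (seqF x j).2) γ := by
      rw [seq_fst]
      exact pick_spec (small1 _ _ _)
    apply h1
    refine ⟨α, lt_of_le_of_lt hαβ h, β, h, δ, hδγ, c, c', ?_⟩
    have h2 : (seqF x γ).1 = (yy x γ c')⁻¹ * aa x (fun j => (seqF x j).1) γ c' := by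
      simp [aa]
    rw [h2]
    simp only [mul_assoc]
    congr 1
    have h3 : aa x (fun j => (seqF x j).1) γ c' =
        (seqF x δ).2 * ((seqF x β).2)⁻¹ * aa x (fun j => (seqF x j).1) α c := by
      have h4 : aa x (fun j => (seqF x j).1) γ c' * ((aa x (fun j => (seqF x j).1) α c)⁻¹ *
        (seqF x β).2) = (seqF x δ).2 := by
        rw [heq]
        simp
      rw [← h4]
      group
    rw [h3]
    simp only [mul_assoc]
  · have h1 : (seqF x β).2 ∉ Bad2 x (fun j => (seqF x j).1) (fun j => (seqF x j).2) β := by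
      rw [seq_snd]
      exact pick_spec (small2 _ _ _)
    apply h1
    refine ⟨α, hαβ, γ, h, δ, lt_of_lt_of_le hδγ h, c, c', ?_⟩
    rw [mul_assoc, ← heq]
    simp

end Sequences

/-- The vertices: three marker vertices and three copies of the group. -/
inductive Vert (G : Type u) : Type u where
  | w : Vert G
  | x : Vert G
  | y : Vert G
  | p1 : G → Vert G
  | p2 : G → Vert G
  | p3 : G → Vert G

section Construction

variable {G : Type u} [Group G]

open Vert in
/-- The arc relation. -/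
def arcR (P A D B : Set G) : Vert G → Vert G → Prop
  | w, w => False
  | w, x => False
  | w, y => False
  | w, p1 _ => True
  | w, p2 _ => True
  | w, p3 _ => True
  | x, w => True
  | x, x => False
  | x, y => True
  | x, p1 _ => True
  | x, p2 _ => False
  | x, p3 _ => False
  | y, w => True
  | y, x => False
  | y, y => False
  | y, p1 _ => False
  | y, p2 _ => True
  | y, p3 _ => False
  | p1 _, w => False
  | p1 _, x => False
  | p1 _, y => True
  | p1 g, p1 h => g⁻¹ * h ∈ P
  | p1 g, p2 h => g⁻¹ * h ∈ A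
  | p1 g, p3 h => g⁻¹ * h ∈ D
  | p2 _, w => False
  | p2 _, x => True
  | p2 _, y => False
  | p2 g, p1 h => h⁻¹ * g ∉ A
  | p2 g, p2 h => g⁻¹ * h ∈ P
  | p2 g, p3 h => g⁻¹ * h ∈ B
  | p3 _, w => False
  | p3 _, x => True
  | p3 _, y => True
  | p3 g, p1 h => h⁻¹ * g ∉ D
  | p3 g, p2 h => h⁻¹ * g ∉ B
  | p3 g, p3 h => g⁻¹ * h ∈ P

/-- The tournament. -/
def tour (P A D B : Set G) (h1 : (1 : G) ∉ P) (hP : ∀ g : G, g ≠ 1 → (g ∈ P ↔ g⁻¹ ∉ P)) :
    Tourn (Vert G) where
  arc := arcR P A D B
  loopless := by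
    intro v
    cases v <;> simp [arcR, h1]
  total := by
    intro u v huv
    have key : ∀ g h : G, g ≠ h → (g⁻¹ * h ∈ P ↔ ¬ h⁻¹ * g ∈ P) := by
      intro g h hgh
      have := hP (g⁻¹ * h) (fun e => hgh (by
        have := congrArg (fun z => g * z) e
        simpa using this.symm))
      simpa using this
    cases u <;> cases v <;> first
      | exact absurd rfl huv
      | (apply key; intro e; exact huv (by rw [e]))
      | simp [arcR]

open Vert in
/-- Left translation by `g`. -/
def trans (g : G) : Equiv.Perm (Vert G) where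
  toFun := fun v => match v with
    | w => w
    | x => x
    | y => y
    | p1 h => p1 (g * h)
    | p2 h => p2 (g * h)
    | p3 h => p3 (g * h)
  invFun := fun v => match v with
    | w => w
    | x => x
    | y => y
    | p1 h => p1 (g⁻¹ * h)
    | p2 h => p2 (g⁻¹ * h)
    | p3 h => p3 (g⁻¹ * h)
  left_inv := by
    intro v
    cases v <;> simp
  right_inv := by
    intro v
    cases v <;> simp

/-- Left translations are automorphisms. -/
def transHom (P A D B : Set G) (h1 : (1 : G) ∉ P) (hP : ∀ g : G, g ≠ 1 → (g ∈ P ↔ g⁻¹ ∉ P)) :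
    G →* Aut (tour P A D B h1 hP) where
  toFun := fun g => ⟨trans g, by
    intro u v
    cases u <;> cases v <;> simp [tour, arcR, trans, mul_assoc]⟩
  map_one' := by
    apply Subtype.ext
    apply Equiv.ext
    intro v
    cases v <;> simp [trans]
  map_mul' := by
    intro g h
    apply Subtype.ext
    apply Equiv.ext
    intro v
    cases v <;> simp [trans, mul_assoc]

variable {I : Type u} [LinearOrder I] [WellFoundedLT I]

/-- the set coding the first two layers -/
def setA (x s : I → G) : Set G := {g | ∃ α c, g = aa x s α c}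

/-- the set coding the first and third layer -/
def setD (d : I → G) : Set G := Set.range d

/-- the half graph relation -/
def setB (x s d : I → G) : Set G := {g | ∃ α β c, α ≤ β ∧ g = (aa x s α c)⁻¹ * d β}

/-- the condition on the sequences -/
def Cond (x s d : I → G) : Prop := ∀ α β γ δ : I, ∀ c c' : Bool, α ≤ β → δ < γ →
      (aa x s α c)⁻¹ * d β ≠ (aa x s γ c')⁻¹ * d δ

omit [WellFoundedLT I] in
lemma mem_setB {x s d : I → G} (hc : Cond x s d) (α β : I) (c : Bool) :
    (aa x s α c)⁻¹ * d β ∈ setB x s d ↔ α ≤ β := by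
  constructor
  · rintro ⟨α', β', c', h1, h2⟩
    by_contra h3
    exact hc α' β' α β c' c h1 (not_le.1 h3) h2.symm
  · intro h
    exact ⟨α, β, c, h, rfl⟩

omit [WellFoundedLT I] in
lemma aa_inj {x s d : I → G} (hc : Cond x s d) {α α' : I} {c c' : Bool}
    (h : aa x s α c = aa x s α' c') : α = α' := by
  have key : ∀ β, α ≤ β ↔ α' ≤ β := by
    intro β
    rw [← mem_setB hc α β c, ← mem_setB hc α' β c', h]
  exact le_antisymm ((key α').2 le_rfl) ((key α).1 le_rfl)

omit [WellFoundedLT I] in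
lemma d_inj {x s d : I → G} (hc : Cond x s d) {β β' : I} (h : d β = d β') : β = β' := by
  have key : ∀ α, α ≤ β ↔ α ≤ β' := by
    intro α
    rw [← mem_setB hc α β true, ← mem_setB hc α β' true, h]
  exact le_antisymm ((key β).1 le_rfl) ((key β').2 le_rfl)

/-- Rigidity of the half graph with pairs. -/
lemma rigid {x s d : I → G} (hc : Cond x s d) {P : Set G}
    (hP : ∀ g : G, g ≠ 1 → (g ∈ P ↔ g⁻¹ ∉ P)) (f f3 : G → G)
    (f_maps : ∀ a ∈ setA x s, f a ∈ setA x s)
    (f_surj : ∀ b ∈ setA x s, ∃ a ∈ setA x s, f a = b)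
    (f_inj : ∀ a ∈ setA x s, ∀ b ∈ setA x s, f a = f b → a = b)
    (f3_maps : ∀ a ∈ setD d, f3 a ∈ setD d)
    (f3_surj : ∀ b ∈ setD d, ∃ a ∈ setD d, f3 a = b)
    (hB : ∀ a ∈ setA x s, ∀ b ∈ setD d, a⁻¹ * b ∈ setB x s d ↔ (f a)⁻¹ * f3 b ∈ setB x s d)
    (hPf : ∀ a ∈ setA x s, ∀ b ∈ setA x s, a⁻¹ * b ∈ P ↔ (f a)⁻¹ * f b ∈ P) :
    (∀ a ∈ setA x s, f a = a) ∧ (∀ b ∈ setD d, f3 b = b) := by
  have hr : ∀ α c, ∃ α' c', f (aa x s α c) = aa x s α' c' := fun α c => f_maps _ ⟨α, c, rfl⟩
  choose r t hrt using hr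
  have hq : ∀ β, ∃ β', d β' = f3 (d β) := fun β => f3_maps _ ⟨β, rfl⟩
  choose q hq using hq
  have star : ∀ α β c, α ≤ β ↔ r α c ≤ q β := by
    intro α β c
    rw [← mem_setB hc α β c, hB _ ⟨α, c, rfl⟩ _ ⟨β, rfl⟩, hrt, ← hq, mem_setB hc]
  have qs : Function.Surjective q := by
    intro δ
    obtain ⟨a, ⟨β, rfl⟩, h⟩ := f3_surj (d δ) ⟨δ, rfl⟩
    exact ⟨β, d_inj hc ((hq β).trans h)⟩
  have r_eq : ∀ α c, r α c = r α true := by
    intro α c
    have key : ∀ δ, r α c ≤ δ ↔ r α true ≤ δ := by
      intro δ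
      obtain ⟨β, rfl⟩ := qs δ
      rw [← star, ← star]
    exact le_antisymm ((key _).2 le_rfl) ((key _).1 le_rfl)
  have mono : ∀ α α', α ≤ α' ↔ r α true ≤ r α' true := by
    intro α α'
    constructor
    · intro h
      obtain ⟨β, hβ⟩ := qs (r α' true)
      have h1 : α' ≤ β := (star α' β true).2 hβ.symm.le
      have h2 := (star α β true).1 (h.trans h1)
      rw [hβ] at h2
      exact h2
    · intro h
      have h1 := (star α' α' true).1 le_rfl
      exact (star α α' true).2 (h.trans h1)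
  have smono : StrictMono (fun α => r α true) := by
    intro α α' h
    rw [← not_le] at h ⊢
    intro h2
    exact h ((mono _ _).2 h2)
  have rs : Function.Surjective (fun α => r α true) := by
    intro α'
    obtain ⟨a, ⟨α, c, rfl⟩, h⟩ := f_surj (aa x s α' true) ⟨α', true, rfl⟩
    refine ⟨α, ?_⟩
    show r α true = α'
    rw [← r_eq α c]
    rw [hrt] at h
    exact aa_inj hc h
  have rid : ∀ α, r α true = α := by
    intro α
    have h1 : StrictMono.orderIsoOfSurjective (fun α => r α true) smono rs = OrderIso.refl I :=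
      Subsingleton.elim _ _
    have h2 := congrArg (fun e : I ≃o I => e α) h1
    simpa using h2
  have rid' : ∀ α c, r α c = α := fun α c => (r_eq α c).trans (rid α)
  have qid : ∀ β, q β = β := by
    intro β
    have key : ∀ α, α ≤ β ↔ α ≤ q β := by
      intro α
      rw [star α β true, rid]
    exact le_antisymm ((key _).2 le_rfl) ((key _).1 le_rfl)
  constructor
  · rintro a ⟨α, c, rfl⟩
    by_contra hne
    have h1 : f (aa x s α c) = aa x s α (t α c) := by rw [hrt, rid']
    have h2 : t α c = !c := by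
      have : t α c ≠ c := fun h => hne (by rw [h1, h])
      revert this
      cases t α c <;> cases c <;> simp
    rw [h2] at h1
    have h3 : f (aa x s α (!c)) = aa x s α (t α (!c)) := by rw [hrt, rid']
    have h4 : t α (!c) = c := by
      have : t α (!c) ≠ !c := by
        intro h
        rw [h] at h3
        have h5 := f_inj _ ⟨α, !c, rfl⟩ _ ⟨α, c, rfl⟩ (h3.trans h1.symm)
        exact hne (h1.trans h5)
      revert this
      cases t α (!c) <;> cases c <;> simp
    rw [h4] at h3
    have h6 := hPf _ ⟨α, c, rfl⟩ _ ⟨α, !c, rfl⟩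
    rw [h1, h3] at h6
    have h7 : (aa x s α c)⁻¹ * aa x s α (!c) ≠ 1 := by
      intro h
      apply hne
      rw [h1]
      exact (inv_mul_eq_one.1 h).symm
    have h8 := hP _ h7
    rw [mul_inv_rev, inv_inv] at h8
    tauto
  · rintro b ⟨β, rfl⟩
    rw [← hq, qid]

/-- all vertices except `w` have infinitely many in-neighbours -/
lemma infinite_in [Infinite G] {P A D B : Set G} (h1 : (1 : G) ∉ P)
    (hP : ∀ g : G, g ≠ 1 → (g ∈ P ↔ g⁻¹ ∉ P)) (v : Vert G) (hv : v ≠ Vert.w) :
    {u | (tour P A D B h1 hP).arc u v}.Infinite := by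
  have hinf : P.Infinite := by
    intro hfin
    have h2 : (Set.univ : Set G) ⊆ insert 1 (P ∪ P⁻¹) := by
      intro g _
      by_cases hg : g = 1
      · left; exact hg
      · right
        by_cases h3 : g ∈ P
        · left; exact h3
        · right
          have := hP g⁻¹ (by simpa using hg)
          rw [inv_inv] at this
          exact this.2 h3
    exact Set.infinite_univ (((hfin.union hfin.inv).insert 1).subset h2)
  have key : ∀ g : G, {h : G | h⁻¹ * g ∈ P}.Infinite := by
    intro g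
    have h3 : (fun p : G => g * p⁻¹) '' P ⊆ {h : G | h⁻¹ * g ∈ P} := by
      rintro _ ⟨p, hp, rfl⟩
      simpa using hp
    refine (hinf.image ?_).mono h3
    intro a _ b _ hab
    simpa using hab
  cases v with
  | w => exact absurd rfl hv
  | x =>
    have : Set.range (Vert.p2 : G → Vert G) ⊆ {u | (tour P A D B h1 hP).arc u Vert.x} := by
      rintro _ ⟨g, rfl⟩
      trivial
    refine (Set.infinite_range_of_injective ?_).mono this
    intro a b h
    injection h
  | y =>
    have : Set.range (Vert.p1 : G → Vert G) ⊆ {u | (tour P A D B h1 hP).arc u Vert.y} := by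
      rintro _ ⟨g, rfl⟩
      trivial
    refine (Set.infinite_range_of_injective ?_).mono this
    intro a b h
    injection h
  | p1 g =>
    have : Vert.p1 '' {h : G | h⁻¹ * g ∈ P} ⊆ {u | (tour P A D B h1 hP).arc u (Vert.p1 g)} := by
      rintro _ ⟨h, hh, rfl⟩
      exact hh
    refine ((key g).image ?_).mono this
    intro a _ b _ h
    injection h
  | p2 g =>
    have : Vert.p2 '' {h : G | h⁻¹ * g ∈ P} ⊆ {u | (tour P A D B h1 hP).arc u (Vert.p2 g)} := by
      rintro _ ⟨h, hh, rfl⟩
      exact hh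
    refine ((key g).image ?_).mono this
    intro a _ b _ h
    injection h
  | p3 g =>
    have : Vert.p3 '' {h : G | h⁻¹ * g ∈ P} ⊆ {u | (tour P A D B h1 hP).arc u (Vert.p3 g)} := by
      rintro _ ⟨h, hh, rfl⟩
      exact hh
    refine ((key g).image ?_).mono this
    intro a _ b _ h
    injection h

lemma fix_w [Infinite G] {P A D B : Set G} (h1 : (1 : G) ∉ P)
    (hP : ∀ g : G, g ≠ 1 → (g ∈ P ↔ g⁻¹ ∉ P)) (e : Equiv.Perm (Vert G))
    (he : e ∈ Aut (tour P A D B h1 hP)) : e Vert.w = Vert.w := by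
  by_contra hne
  have h2 := infinite_in (A := A) (D := D) (B := B) h1 hP _ hne
  apply h2
  have h3 : {u | (tour P A D B h1 hP).arc u (e Vert.w)} ⊆
      e '' {Vert.x, Vert.y} := by
    intro u hu
    refine ⟨e.symm u, ?_, by simp⟩
    have h4 : (tour P A D B h1 hP).arc (e.symm u) Vert.w := by
      rw [he (e.symm u) Vert.w]
      simpa using hu
    revert h4
    generalize e.symm u = v
    intro h4
    cases v with
    | w => exact absurd h4 (fun h => h)
    | x => simp
    | y => simp
    | p1 g => exact absurd h4 (fun h => h)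
    | p2 g => exact absurd h4 (fun h => h)
    | p3 g => exact absurd h4 (fun h => h)
  exact (Set.toFinite _).subset h3

lemma fix_xy [Infinite G] {P A D B : Set G} (h1 : (1 : G) ∉ P)
    (hP : ∀ g : G, g ≠ 1 → (g ∈ P ↔ g⁻¹ ∉ P)) (e : Equiv.Perm (Vert G))
    (he : e ∈ Aut (tour P A D B h1 hP)) : e Vert.x = Vert.x ∧ e Vert.y = Vert.y := by
  have ew := fix_w h1 hP e he
  have key : ∀ v, (tour P A D B h1 hP).arc v Vert.w → v = Vert.x ∨ v = Vert.y := by
    intro v h4
    cases v with
    | w => exact absurd h4 (fun h => h)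
    | x => simp
    | y => simp
    | p1 g => exact absurd h4 (fun h => h)
    | p2 g => exact absurd h4 (fun h => h)
    | p3 g => exact absurd h4 (fun h => h)
  have hx : (tour P A D B h1 hP).arc (e Vert.x) Vert.w := by
    have := (he Vert.x Vert.w).1 trivial
    rwa [ew] at this
  have hy : (tour P A D B h1 hP).arc (e Vert.y) Vert.w := by
    have := (he Vert.y Vert.w).1 trivial
    rwa [ew] at this
  have hxy : (tour P A D B h1 hP).arc (e Vert.x) (e Vert.y) := (he Vert.x Vert.y).1 trivial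
  rcases key _ hx with h | h <;> rcases key _ hy with h' | h'
  · rw [h, h'] at hxy
    exact absurd hxy (fun h => h)
  · exact ⟨h, h'⟩
  · rw [h, h'] at hxy
    exact absurd hxy (fun h => h)
  · rw [h, h'] at hxy
    exact absurd hxy (fun h => h)

lemma layer1 [Infinite G] {P A D B : Set G} (h1 : (1 : G) ∉ P)
    (hP : ∀ g : G, g ≠ 1 → (g ∈ P ↔ g⁻¹ ∉ P)) (e : Equiv.Perm (Vert G))
    (he : e ∈ Aut (tour P A D B h1 hP)) (g : G) : ∃ g', e (Vert.p1 g) = Vert.p1 g' := by
  have ew := fix_w h1 hP e he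
  obtain ⟨ex, ey⟩ := fix_xy h1 hP e he
  have h2 : (tour P A D B h1 hP).arc Vert.x (e (Vert.p1 g)) := by
    have := (he Vert.x (Vert.p1 g)).1 trivial
    rwa [ex] at this
  rcases hv : e (Vert.p1 g) with _ | _ | _ | g' | g' | g'
  · rw [← ew] at hv
    have := e.injective hv
    cases this
  · rw [← ex] at hv
    have := e.injective hv
    cases this
  · rw [← ey] at hv
    have := e.injective hv
    cases this
  · exact ⟨g', rfl⟩
  · rw [hv] at h2
    exact absurd h2 (fun h => h)
  · rw [hv] at h2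
    exact absurd h2 (fun h => h)

lemma layer2 [Infinite G] {P A D B : Set G} (h1 : (1 : G) ∉ P)
    (hP : ∀ g : G, g ≠ 1 → (g ∈ P ↔ g⁻¹ ∉ P)) (e : Equiv.Perm (Vert G))
    (he : e ∈ Aut (tour P A D B h1 hP)) (g : G) : ∃ g', e (Vert.p2 g) = Vert.p2 g' := by
  have ew := fix_w h1 hP e he
  obtain ⟨ex, ey⟩ := fix_xy h1 hP e he
  have h2 : (tour P A D B h1 hP).arc Vert.y (e (Vert.p2 g)) := by
    have := (he Vert.y (Vert.p2 g)).1 trivial
    rwa [ey] at this
  rcases hv : e (Vert.p2 g) with _ | _ | _ | g' | g' | g'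
  · rw [← ew] at hv
    have := e.injective hv
    cases this
  · rw [← ex] at hv
    have := e.injective hv
    cases this
  · rw [← ey] at hv
    have := e.injective hv
    cases this
  · rw [hv] at h2
    exact absurd h2 (fun h => h)
  · exact ⟨g', rfl⟩
  · rw [hv] at h2
    exact absurd h2 (fun h => h)

lemma layer3 [Infinite G] {P A D B : Set G} (h1 : (1 : G) ∉ P)
    (hP : ∀ g : G, g ≠ 1 → (g ∈ P ↔ g⁻¹ ∉ P)) (e : Equiv.Perm (Vert G))
    (he : e ∈ Aut (tour P A D B h1 hP)) (g : G) : ∃ g', e (Vert.p3 g) = Vert.p3 g' := by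
  have ew := fix_w h1 hP e he
  obtain ⟨ex, ey⟩ := fix_xy h1 hP e he
  have h2 : (tour P A D B h1 hP).arc (e (Vert.p3 g)) Vert.x := by
    have := (he (Vert.p3 g) Vert.x).1 trivial
    rwa [ex] at this
  have h3 : (tour P A D B h1 hP).arc (e (Vert.p3 g)) Vert.y := by
    have := (he (Vert.p3 g) Vert.y).1 trivial
    rwa [ey] at this
  rcases hv : e (Vert.p3 g) with _ | _ | _ | g' | g' | g'
  · rw [← ew] at hv
    have := e.injective hv
    cases this
  · rw [← ex] at hv
    have := e.injective hv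
    cases this
  · rw [← ey] at hv
    have := e.injective hv
    cases this
  · rw [hv] at h2
    exact absurd h2 (fun h => h)
  · rw [hv] at h3
    exact absurd h3 (fun h => h)
  · exact ⟨g', rfl⟩

lemma aut_eq_trans [Infinite G] [Nonempty I] {P : Set G} (h1 : (1 : G) ∉ P)
    (hP : ∀ g : G, g ≠ 1 → (g ∈ P ↔ g⁻¹ ∉ P)) {x s d : I → G} (hx : Function.Surjective x)
    (hc : Cond x s d) (e : Equiv.Perm (Vert G))
    (he : e ∈ Aut (tour P (setA x s) (setD d) (setB x s d) h1 hP)) : ∃ g : G, trans g = e := by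
  have ew := fix_w h1 hP e he
  obtain ⟨ex, ey⟩ := fix_xy h1 hP e he
  have he' : e⁻¹ ∈ Aut (tour P (setA x s) (setD d) (setB x s d) h1 hP) := inv_mem he
  choose π1 hπ1 using layer1 h1 hP e he
  choose π2 hπ2 using layer2 h1 hP e he
  choose π3 hπ3 using layer3 h1 hP e he
  have hA : ∀ g h, g⁻¹ * h ∈ setA x s ↔ (π1 g)⁻¹ * π2 h ∈ setA x s := by
    intro g h
    have := he (Vert.p1 g) (Vert.p2 h)
    rw [hπ1, hπ2] at this
    exact this
  have hD : ∀ g h, g⁻¹ * h ∈ setD d ↔ (π1 g)⁻¹ * π3 h ∈ setD d := by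
    intro g h
    have := he (Vert.p1 g) (Vert.p3 h)
    rw [hπ1, hπ3] at this
    exact this
  have hB : ∀ g h, g⁻¹ * h ∈ setB x s d ↔ (π2 g)⁻¹ * π3 h ∈ setB x s d := by
    intro g h
    have := he (Vert.p2 g) (Vert.p3 h)
    rw [hπ2, hπ3] at this
    exact this
  have hP2 : ∀ g h, g⁻¹ * h ∈ P ↔ (π2 g)⁻¹ * π2 h ∈ P := by
    intro g h
    have := he (Vert.p2 g) (Vert.p2 h)
    rw [hπ2, hπ2] at this
    exact this
  have π2_surj : Function.Surjective π2 := by
    intro h
    obtain ⟨h', hh'⟩ := layer2 h1 hP e⁻¹ he' h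
    refine ⟨h', ?_⟩
    have h2 : e (Vert.p2 h') = Vert.p2 h := by
      rw [← hh']
      exact e.apply_symm_apply _
    rw [hπ2] at h2
    injection h2
  have π3_surj : Function.Surjective π3 := by
    intro h
    obtain ⟨h', hh'⟩ := layer3 h1 hP e⁻¹ he' h
    refine ⟨h', ?_⟩
    have h2 : e (Vert.p3 h') = Vert.p3 h := by
      rw [← hh']
      exact e.apply_symm_apply _
    rw [hπ3] at h2
    injection h2
  have π2_inj : Function.Injective π2 := by
    intro a b hab
    have h2 : e (Vert.p2 a) = e (Vert.p2 b) := by rw [hπ2, hπ2, hab]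
    have h3 := e.injective h2
    injection h3
  have main : ∀ g : G, (∀ a ∈ setA x s, (π1 g)⁻¹ * π2 (g * a) = a) ∧
      (∀ b ∈ setD d, (π1 g)⁻¹ * π3 (g * b) = b) := by
    intro g
    refine rigid hc hP (fun a => (π1 g)⁻¹ * π2 (g * a)) (fun b => (π1 g)⁻¹ * π3 (g * b))
      ?_ ?_ ?_ ?_ ?_ ?_ ?_
    · intro a ha
      have := hA g (g * a)
      rw [inv_mul_cancel_left] at this
      exact this.1 ha
    · intro b hb
      obtain ⟨h, hh⟩ := π2_surj (π1 g * b)
      refine ⟨g⁻¹ * h, ?_, ?_⟩
      · rw [hA, hh, inv_mul_cancel_left]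
        exact hb
      · show (π1 g)⁻¹ * π2 (g * (g⁻¹ * h)) = b
        rw [mul_inv_cancel_left, hh, inv_mul_cancel_left]
    · intro a _ b _ hab
      have h2 : π2 (g * a) = π2 (g * b) := mul_left_cancel hab
      exact mul_left_cancel (π2_inj h2)
    · intro a ha
      have := hD g (g * a)
      rw [inv_mul_cancel_left] at this
      exact this.1 ha
    · intro b hb
      obtain ⟨h, hh⟩ := π3_surj (π1 g * b)
      refine ⟨g⁻¹ * h, ?_, ?_⟩
      · rw [hD, hh, inv_mul_cancel_left]
        exact hb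
      · show (π1 g)⁻¹ * π3 (g * (g⁻¹ * h)) = b
        rw [mul_inv_cancel_left, hh, inv_mul_cancel_left]
    · intro a _ b _
      have := hB (g * a) (g * b)
      have e1 : (g * a)⁻¹ * (g * b) = a⁻¹ * b := by group
      have e2 : ((π1 g)⁻¹ * π2 (g * a))⁻¹ * ((π1 g)⁻¹ * π3 (g * b)) =
          (π2 (g * a))⁻¹ * π3 (g * b) := by group
      show _ ↔ ((π1 g)⁻¹ * π2 (g * a))⁻¹ * ((π1 g)⁻¹ * π3 (g * b)) ∈ _
      rw [e2, ← this, e1]
    · intro a _ b _
      have := hP2 (g * a) (g * b)
      have e1 : (g * a)⁻¹ * (g * b) = a⁻¹ * b := by group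
      have e2 : ((π1 g)⁻¹ * π2 (g * a))⁻¹ * ((π1 g)⁻¹ * π2 (g * b)) =
          (π2 (g * a))⁻¹ * π2 (g * b) := by group
      show _ ↔ ((π1 g)⁻¹ * π2 (g * a))⁻¹ * ((π1 g)⁻¹ * π2 (g * b)) ∈ _
      rw [e2, ← this, e1]
  have m2 : ∀ g, ∀ a ∈ setA x s, π2 (g * a) = π1 g * a := by
    intro g a ha
    exact inv_mul_eq_iff_eq_mul.1 ((main g).1 a ha)
  have m3 : ∀ g, ∀ b ∈ setD d, π3 (g * b) = π1 g * b := by
    intro g a ha
    exact inv_mul_eq_iff_eq_mul.1 ((main g).2 a ha)
  have hom : ∀ g z, π1 (g * z) = π1 g * z := by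
    intro g z
    obtain ⟨i, rfl⟩ := hx z
    have a1 := m2 g (aa x s i true) ⟨i, true, rfl⟩
    have a2 := m2 (g * x i) (aa x s i false) ⟨i, false, rfl⟩
    have e1 : g * x i * aa x s i false = g * aa x s i true := by
      simp [aa, yy]
    rw [e1, a1] at a2
    have e2 : aa x s i true = x i * aa x s i false := by
      simp [aa, yy]
    rw [e2, ← mul_assoc] at a2
    exact (mul_right_cancel a2).symm
  have p1 : ∀ z, π1 z = π1 1 * z := by
    intro z
    have := hom 1 z
    rwa [one_mul] at this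
  obtain ⟨i⟩ := (inferInstance : Nonempty I)
  have p2 : ∀ z, π2 z = π1 1 * z := by
    intro z
    have := m2 (z * (aa x s i true)⁻¹) (aa x s i true) ⟨i, true, rfl⟩
    rw [inv_mul_cancel_right, p1, mul_assoc, inv_mul_cancel_right] at this
    exact this
  have p3 : ∀ z, π3 z = π1 1 * z := by
    intro z
    have := m3 (z * (d i)⁻¹) (d i) ⟨i, rfl⟩
    rw [inv_mul_cancel_right, p1, mul_assoc, inv_mul_cancel_right] at this
    exact this
  refine ⟨π1 1, Equiv.ext fun v => ?_⟩
  cases v with
  | w => exact ew.symm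
  | x => exact ex.symm
  | y => exact ey.symm
  | p1 g => exact (congrArg Vert.p1 (p1 g)).symm.trans (hπ1 g).symm
  | p2 g => exact (congrArg Vert.p2 (p2 g)).symm.trans (hπ2 g).symm
  | p3 g => exact (congrArg Vert.p3 (p3 g)).symm.trans (hπ3 g).symm

end Construction

/-- **Main result.** Every infinite group without elements of order two is represented by a
tournament whose automorphism group has at most six vertex orbits. -/
theorem result : ∀ (G : Type u) [Group G] [Infinite G], (∀ g : G, orderOf g ≠ 2) →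
    ∃ (V : Type u) (T : Tourn V), Nonempty (Aut T ≃* G) ∧
      #(MulAction.orbitRel.Quotient (Aut T) V) ≤ 6 := by
  intro G _ _ h2
  classical
  -- a set meeting each pair of inverse elements once
  let P : Set G := {g | WellOrderingRel g g⁻¹}
  have h1 : (1 : G) ∉ P := by
    intro h
    have h' : WellOrderingRel (1 : G) (1 : G)⁻¹ := h
    rw [inv_one] at h'
    exact irrefl_of WellOrderingRel (1 : G) h'
  have hne : ∀ g : G, g ≠ 1 → g ≠ g⁻¹ := by
    intro g hg h
    apply h2 g
    apply orderOf_eq_prime _ hg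
    rw [pow_two]
    nth_rewrite 2 [h]
    exact mul_inv_cancel g
  have hP : ∀ g : G, g ≠ 1 → (g ∈ P ↔ g⁻¹ ∉ P) := by
    intro g hg
    have h3 := hne g hg
    constructor
    · intro h4 h5
      have h5' : WellOrderingRel g⁻¹ (g⁻¹)⁻¹ := h5
      rw [inv_inv] at h5'
      exact asymm_of WellOrderingRel h4 h5'
    · intro h4
      rcases trichotomous_of WellOrderingRel g g⁻¹ with h | h | h
      · exact h
      · exact absurd h h3
      · exact absurd (show WellOrderingRel g⁻¹ (g⁻¹)⁻¹ by rwa [inv_inv]) h4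
  let κ : Cardinal.{u} := #G
  have hκ : ℵ₀ ≤ κ := Cardinal.aleph0_le_mk G
  let I : Type u := κ.ord.ToType
  have hI : #I = #G := Cardinal.mk_ord_toType κ
  obtain ⟨f⟩ := Cardinal.eq.1 hI
  have hIne : Nonempty I := ⟨f.symm 1⟩
  obtain ⟨s, d, hc⟩ := exists_seq (I := I) (fun i => f i) κ hκ rfl
    (fun i => by
      have h5 : (#I).ord = Ordinal.type (α := I) (fun x1 x2 => x1 < x2) := by
        rw [hI]
        exact (Ordinal.type_toType _).symm
      have h6 := Cardinal.mk_Iio_lt i h5
      rwa [hI] at h6)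
  have hc' : Cond (fun i => f i) s d := hc
  refine ⟨Vert G, tour P (setA (fun i => f i) s) (setD d) (setB (fun i => f i) s d) h1 hP,
    ⟨?_⟩, ?_⟩
  · refine (MulEquiv.ofBijective (transHom P (setA (fun i => f i) s) (setD d)
      (setB (fun i => f i) s d) h1 hP) ⟨?_, ?_⟩).symm
    · intro g g' hgg
      have h3 := congrArg (fun a => (Subtype.val a) (Vert.p1 1)) hgg
      have h4 : Vert.p1 (g * 1) = Vert.p1 (g' * 1) := h3
      injection h4 with h5
      simpa using h5
    · rintro ⟨e, he⟩
      obtain ⟨g, hg⟩ := aut_eq_trans h1 hP f.surjective hc' e he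
      exact ⟨g, Subtype.ext hg⟩
  · let F : ULift.{u} (Fin 6) → MulAction.orbitRel.Quotient
      (Aut (tour P (setA (fun i => f i) s) (setD d) (setB (fun i => f i) s d) h1 hP)) (Vert G) :=
      fun i => Quotient.mk _ ((![Vert.w, Vert.x, Vert.y, Vert.p1 1, Vert.p2 1, Vert.p3 1] :
        Fin 6 → Vert G) i.down)
    have hF : Function.Surjective F := by
      intro q
      induction q using Quotient.inductionOn with
      | h v =>
        cases v with
        | w => exact ⟨⟨0⟩, rfl⟩
        | x => exact ⟨⟨1⟩, rfl⟩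
        | y => exact ⟨⟨2⟩, rfl⟩
        | p1 g =>
          refine ⟨⟨3⟩, ?_⟩
          apply Quotient.sound
          refine ⟨(transHom P _ _ _ h1 hP g)⁻¹, ?_⟩
          rw [← map_inv]
          show Vert.p1 (g⁻¹ * g) = Vert.p1 1
          rw [inv_mul_cancel]
        | p2 g =>
          refine ⟨⟨4⟩, ?_⟩
          apply Quotient.sound
          refine ⟨(transHom P _ _ _ h1 hP g)⁻¹, ?_⟩
          rw [← map_inv]
          show Vert.p2 (g⁻¹ * g) = Vert.p2 1
          rw [inv_mul_cancel]
        | p3 g =>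
          refine ⟨⟨5⟩, ?_⟩
          apply Quotient.sound
          refine ⟨(transHom P _ _ _ h1 hP g)⁻¹, ?_⟩
          rw [← map_inv]
          show Vert.p3 (g⁻¹ * g) = Vert.p3 1
          rw [inv_mul_cancel]
    refine (Cardinal.mk_le_of_surjective hF).trans ?_
    simp

end Pool.Agent.Results.MP_4ac3ef_co.SixOrbits
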